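import Pool.Agent.helper3.FS.SpecE

/-! fse:NRB: the near part of the energy estimate. -/

set_option autoImplicit false

open Complex Metric Set Filter Topology MeasureTheory
open HY (UD T S hd UN RM)
open RT

noncomputable section

namespace FSE

theorem NRB (hARE : RT.ARE_stmt) (hTKO : RT.TKO_stmt) (hTBM : RT.TBM_stmt) (hTDF : RT.TDF_stmt) (hTPT : RT.TPT_stmt) : NRB_stmt := by
  classical
  intro s ε ρ hs0 hs1 hε hρ
  obtain ⟨C₁, hC₁, hAR⟩ := hARE s hs0 hs1 ε 2 hε (by norm_num)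
  obtain ⟨K, hK, -, hTK⟩ := hTKO s hs0 hs1
  set ρ' : ℝ := max ρ 0 with hρ'
  have hρ0 : 0 ≤ ρ' := le_max_right _ _
  have hρ1 : ρ' < 1 := max_lt hρ (by norm_num)
  have hρρ : ρ ≤ ρ' := le_max_left _ _
  obtain ⟨C₂, hC₂, hTK2⟩ := hTK ρ' hρ0 hρ1
  have hg0 : 0 < 1 - ρ' := by linarith
  refine ⟨C₁ * (1 - ρ') ^ (-(2 : ℝ)) * C₂, by positivity, ?_⟩
  intro κ hκ0 hκ1 W hW I o hSEP y hy
  have hcy : 0 < cr W y := (hTDF s W hW y hy).2.1
  set J := I.filter (fun i => pd W y (o i) ≤ ρ) with hJ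
  have hJI : ∀ i ∈ J, i ∈ I ∧ pd W y (o i) ≤ ρ := by
    intro i hi
    exact Finset.mem_filter.1 hi
  have hinj : Set.InjOn o (J : Set ℕ) := by
    intro i hi j hj hij
    by_contra hne
    have h1 := hSEP.2 i (hJI i hi).1 j (hJI j hj).1 hne
    rw [← hij, (hTDF s W hW (o i) (hSEP.1 i (hJI i hi).1)).2.2.2.1] at h1
    linarith
  have hcard : ((J.image o).card : ℝ) ≤ C₁ * (1 - ρ') ^ (-(2 : ℝ)) := by
    refine hAR W hW y hy (1 - ρ') hg0 (by linarith) (J.image o) ?_ ?_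
    · intro x hx
      obtain ⟨i, hi, rfl⟩ := Finset.mem_image.1 hx
      have hiW := hSEP.1 i (hJI i hi).1
      refine ⟨hiW, ?_⟩
      have h1 := (hTBM s W hs0 hW (o i) hiW y hy).2.2.1
      have h2 := (hTPT s W hW (o i) hiW y hy y hy).1
      have h3 := (hJI i hi).2
      linarith
    · intro x hx x' hx' hxx
      obtain ⟨i, hi, rfl⟩ := Finset.mem_image.1 hx
      obtain ⟨i', hi', rfl⟩ := Finset.mem_image.1 hx'
      exact hSEP.2 i (hJI i hi).1 i' (hJI i' hi').1 (fun h => hxx (by rw [h]))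
  rw [Finset.card_image_of_injOn hinj] at hcard
  have hterm : ∀ i ∈ J, cr W (o i) ^ κ ≤ C₂ * cr W y ^ κ := by
    intro i hi
    have hiW := hSEP.1 i (hJI i hi).1
    have h0 : 0 < cr W (o i) := (hTDF s W hW (o i) hiW).2.1
    have h1 := ((hTK2 W hW y hy).1 (o i) hiW ((hJI i hi).2.trans hρρ)).2.1
    calc cr W (o i) ^ κ ≤ (C₂ * cr W y) ^ κ := Real.rpow_le_rpow h0.le h1 hκ0.le
      _ = C₂ ^ κ * cr W y ^ κ := Real.mul_rpow (by linarith) hcy.le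
      _ ≤ C₂ * cr W y ^ κ := by
          refine mul_le_mul_of_nonneg_right ?_ (by positivity)
          calc C₂ ^ κ ≤ C₂ ^ (1 : ℝ) := Real.rpow_le_rpow_of_exponent_le hC₂ hκ1
            _ = C₂ := Real.rpow_one _
  calc ∑ i ∈ J, cr W (o i) ^ κ ≤ ∑ _i ∈ J, C₂ * cr W y ^ κ := Finset.sum_le_sum hterm
    _ = (J.card : ℝ) * (C₂ * cr W y ^ κ) := by rw [Finset.sum_const, nsmul_eq_mul]
    _ ≤ (C₁ * (1 - ρ') ^ (-(2 : ℝ))) * (C₂ * cr W y ^ κ) := mul_le_mul_of_nonneg_right hcard (by positivity)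
    _ = C₁ * (1 - ρ') ^ (-(2 : ℝ)) * C₂ * cr W y ^ κ := by ring

end FSE

end
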